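import Mathlib

/-!
Definitions for the results on the Bateman-Horn conjecture.
-/

namespace Pool.Agent.H373R2.BH
open Finset Polynomial

/-- The hypotheses of the Bateman-Horn conjecture: pairwise distinct, irreducible in `ℤ[X]`, nonconstant, positive
leading coefficients, and no prime divides all the values of the product. -/
def BHFamily {k : ℕ} (f : Fin k → ℤ[X]) : Prop :=
  Function.Injective f ∧ (∀ i, Irreducible (f i)) ∧ (∀ i, 0 < (f i).natDegree) ∧ (∀ i, 0 < (f i).leadingCoeff) ∧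
    ∀ p : ℕ, p.Prime → ∃ n : ℤ, ¬ (p : ℤ) ∣ ∏ i, (f i).eval n

open Classical in
/-- `ω_p`: the number of residue classes `r` mod `p` with `p ∣ f_i(r)` for some `i`. -/
noncomputable def omegaP {k : ℕ} (f : Fin k → ℤ[X]) (p : ℕ) : ℕ :=
  #((range p).filter (fun r : ℕ => ∃ i, (p : ℤ) ∣ (f i).eval (r : ℤ)))

/-- The Euler product `∏_{p ≤ z} (1-1/p)^(-k) (1 - ω_p/p)`. -/
noncomputable def eulerProduct {k : ℕ} (f : Fin k → ℤ[X]) (z : ℕ) : ℝ :=
  ∏ p ∈ (range (z + 1)).filter Nat.Prime, ((1 - 1 / (p : ℝ)) ^ k)⁻¹ * (1 - (omegaP f p : ℝ) / p)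

open Classical in
/-- The number of `1 ≤ n ≤ x` such that `f_1(n), ..., f_k(n)` are all prime. -/
noncomputable def primeCount {k : ℕ} (f : Fin k → ℤ[X]) (x : ℕ) : ℕ :=
  #((Icc 1 x).filter (fun n : ℕ => ∀ i, Nat.Prime ((f i).eval (n : ℤ)).toNat))

/-- The polynomials `f_i = g_i + a_{i0} + a_{i1} X + ... + a_{i d_i} X^(d_i)`, as integer polynomials. -/
noncomputable def polys {k : ℕ} {d : Fin k → ℕ} (g : Fin k → ℕ[X]) (a : ∀ i, Fin (d i + 1) → ℕ) (i : Fin k) : ℤ[X] :=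
  (g i + ∑ j : Fin (d i + 1), C (a i j) * X ^ (j : ℕ)).map (Nat.castRingHom ℤ)

end Pool.Agent.H373R2.BH
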