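import Mathlib
import Pool.Agent.H43.G.R_seed8.H373R2.BH.Defs

namespace Pool.Agent.H373R2.BH
open Finset Polynomial

/-- number of solutions of `f(n) = c` among naturals -/
lemma card_eval_eq_le (f : ℤ[X]) (hf : 0 < f.natDegree) (c : ℤ) (S : Finset ℕ) :
    #(S.filter (fun n : ℕ => f.eval (n : ℤ) = c)) ≤ f.natDegree := by
  classical
  have hdeg : 0 < f.degree := Polynomial.natDegree_pos_iff_degree_pos.1 hf
  have hne : f - C c ≠ 0 := by
    intro h
    have : f = C c := by rwa [sub_eq_zero] at h
    rw [this, natDegree_C] at hf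
    exact lt_irrefl _ hf
  have h1 : ((S.filter (fun n : ℕ => f.eval (n : ℤ) = c)).image (fun n : ℕ => (n : ℤ))) ⊆ (f - C c).roots.toFinset := by
    intro m hm
    rw [mem_image] at hm
    obtain ⟨n, hn, rfl⟩ := hm
    rw [mem_filter] at hn
    rw [Multiset.mem_toFinset, mem_roots hne]
    simp [IsRoot, hn.2]
  calc #(S.filter (fun n : ℕ => f.eval (n : ℤ) = c)) = #((S.filter (fun n : ℕ => f.eval (n : ℤ) = c)).image (fun n : ℕ => (n : ℤ))) := by
        rw [card_image_of_injective _ Nat.cast_injective]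
    _ ≤ #((f - C c).roots.toFinset) := card_le_card h1
    _ ≤ Multiset.card (f - C c).roots := Multiset.toFinset_card_le _
    _ ≤ f.natDegree := card_roots_sub_C' hdeg

lemma toNat_prime_int {m : ℤ} (h : m.toNat.Prime) : Prime m ∧ 0 < m := by
  have hpos : 0 < m := by
    by_contra h0
    push Not at h0
    rw [Int.toNat_of_nonpos h0] at h
    exact Nat.not_prime_zero h
  refine ⟨?_, hpos⟩
  have h1 : ((m.toNat : ℕ) : ℤ) = m := Int.toNat_of_nonneg hpos.le
  rw [← h1]
  exact Nat.prime_iff_prime_int.1 h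

lemma irreducible_of_many (f : ℤ[X]) (hf : 0 < f.natDegree) (S : Finset ℕ)
    (hS : 2 * f.natDegree < #(S.filter (fun n : ℕ => Nat.Prime (f.eval (n : ℤ)).toNat))) : Irreducible f := by
  classical
  have hf0 : f ≠ 0 := by rintro rfl; simp at hf
  refine ⟨fun hu => ?_, fun A B hAB => ?_⟩
  · have := natDegree_eq_zero_of_isUnit hu
    omega
  · by_contra hcon
    push Not at hcon
    obtain ⟨hA, hB⟩ := hcon
    have hA0 : A ≠ 0 := by rintro rfl; exact hf0 (by rw [hAB, zero_mul])
    have hB0 : B ≠ 0 := by rintro rfl; exact hf0 (by rw [hAB, mul_zero])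
    have hdeg : f.natDegree = A.natDegree + B.natDegree := by rw [hAB, natDegree_mul hA0 hB0]
    -- each prime value forces a unit value
    have key : ∀ n : ℕ, Nat.Prime (f.eval (n : ℤ)).toNat → IsUnit (A.eval (n : ℤ)) ∨ IsUnit (B.eval (n : ℤ)) := by
      intro n hn
      have h1 := (toNat_prime_int hn).1.irreducible
      rw [hAB, eval_mul] at h1
      exact h1.isUnit_or_isUnit rfl
    have hcount : ∀ F : ℤ[X], ¬ IsUnit F → F ≠ 0 → ∀ S : Finset ℕ, #(S.filter (fun n : ℕ => IsUnit (F.eval (n : ℤ)))) ≤ 2 * F.natDegree := by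
      intro F hFu hF0 S
      rcases Nat.eq_zero_or_pos F.natDegree with h0 | h0
      · have hFc : F = C (F.coeff 0) := eq_C_of_natDegree_eq_zero h0
        have : #(S.filter (fun n : ℕ => IsUnit (F.eval (n : ℤ)))) = 0 := by
          rw [card_eq_zero, filter_eq_empty_iff]
          intro n _ hu
          rw [hFc, eval_C] at hu
          apply hFu
          rw [hFc]
          exact hu.map C
        omega
      · have h1 : (S.filter fun n : ℕ => IsUnit (F.eval (n : ℤ))) ⊆
            (S.filter fun n : ℕ => F.eval (n : ℤ) = 1) ∪ (S.filter fun n : ℕ => F.eval (n : ℤ) = -1) := by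
          intro n hn
          rw [mem_filter] at hn
          rw [mem_union, mem_filter, mem_filter]
          rcases Int.isUnit_iff.1 hn.2 with h | h
          · exact Or.inl ⟨hn.1, h⟩
          · exact Or.inr ⟨hn.1, h⟩
        calc _ ≤ _ := card_le_card h1
          _ ≤ _ := card_union_le _ _
          _ ≤ F.natDegree + F.natDegree := Nat.add_le_add (card_eval_eq_le F h0 1 S) (card_eval_eq_le F h0 (-1) S)
          _ = _ := by ring
    have h2 : (S.filter fun n : ℕ => Nat.Prime (f.eval (n : ℤ)).toNat) ⊆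
        (S.filter fun n : ℕ => IsUnit (A.eval (n : ℤ))) ∪ (S.filter fun n : ℕ => IsUnit (B.eval (n : ℤ))) := by
      intro n hn
      rw [mem_filter] at hn
      rw [mem_union, mem_filter, mem_filter]
      rcases key n hn.2 with h | h
      · exact Or.inl ⟨hn.1, h⟩
      · exact Or.inr ⟨hn.1, h⟩
    have h3 := (card_le_card h2).trans (card_union_le _ _)
    have h4 := hcount A hA hA0 S
    have h5 := hcount B hB hB0 S
    omega

/-- many simultaneous prime values force the hypotheses of the conjecture -/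
theorem BHFamily_of_many {k : ℕ} (f : Fin k → ℤ[X]) (hinj : Function.Injective f) (hdeg : ∀ i, 0 < (f i).natDegree)
    (hlead : ∀ i, 0 < (f i).leadingCoeff) (x : ℕ) (h : 2 * ∑ i, (f i).natDegree < primeCount f x) : BHFamily f := by
  classical
  have hle : ∀ i, (f i).natDegree ≤ ∑ i, (f i).natDegree := fun i =>
    single_le_sum (f := fun i => (f i).natDegree) (fun _ _ => Nat.zero_le _) (mem_univ i)
  refine ⟨hinj, fun i => ?_, hdeg, hlead, fun p hp => ?_⟩
  · apply irreducible_of_many (f i) (hdeg i) (Icc 1 x)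
    have h1 : (Icc 1 x).filter (fun n : ℕ => ∀ i, Nat.Prime ((f i).eval (n : ℤ)).toNat) ⊆
        (Icc 1 x).filter (fun n : ℕ => Nat.Prime ((f i).eval (n : ℤ)).toNat) := by
      intro n hn
      rw [mem_filter] at hn ⊢
      exact ⟨hn.1, hn.2 i⟩
    have h2 := card_le_card h1
    have h3 := hle i
    unfold primeCount at h
    omega
  · by_contra hcon
    push Not at hcon
    have h1 : (Icc 1 x).filter (fun n : ℕ => ∀ i, Nat.Prime ((f i).eval (n : ℤ)).toNat) ⊆
        univ.biUnion (fun i => (Icc 1 x).filter (fun n : ℕ => (f i).eval (n : ℤ) = p)) := by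
      intro n hn
      rw [mem_filter] at hn
      rw [mem_biUnion]
      have hpz : Prime (p : ℤ) := Nat.prime_iff_prime_int.1 hp
      obtain ⟨i, _, hi⟩ := (hpz.dvd_finset_prod_iff _).1 (hcon (n : ℤ))
      refine ⟨i, mem_univ i, ?_⟩
      rw [mem_filter]
      refine ⟨hn.1, ?_⟩
      have h2 := toNat_prime_int (hn.2 i)
      have h3 : (p : ℤ) ∣ (((f i).eval (n : ℤ)).toNat : ℤ) := by
        rw [Int.toNat_of_nonneg h2.2.le]; exact hi
      have h4 : p = ((f i).eval (n : ℤ)).toNat :=
        (Nat.prime_dvd_prime_iff_eq hp (hn.2 i)).1 (by exact_mod_cast h3)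
      rw [h4, Int.toNat_of_nonneg h2.2.le]
    have h2 : primeCount f x ≤ ∑ i, (f i).natDegree := by
      unfold primeCount
      calc _ ≤ _ := card_le_card h1
        _ ≤ ∑ i, #((Icc 1 x).filter (fun n : ℕ => (f i).eval (n : ℤ) = p)) := card_biUnion_le
        _ ≤ _ := sum_le_sum fun i _ => card_eval_eq_le (f i) (hdeg i) p _
    omega

end Pool.Agent.H373R2.BH
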